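import Pool.Agent.H37.PT2.Main

set_option autoImplicit false

open Finset

namespace Pool.Agent.Results.MP_138624_an.MixedNorm

/-- The sign of a Boolean. -/
def sg (b : Bool) : ℝ := if b then 1 else -1

/-- The norm of `ℓ_q^k`. -/
noncomputable def lq (q : ℝ) {k : ℕ} (y : Fin k → ℝ) : ℝ := (∑ j, |y j| ^ q) ^ (1 / q)

/-- The norm of `ℓ_1^m(ℓ_q^k)`: the sum over the `m` blocks of the `ℓ_q^k` norms. -/
noncomputable def mixedNorm (q : ℝ) {m k : ℕ} (x : Fin m × Fin k → ℝ) : ℝ :=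
  ∑ a, lq q (fun j => x (a, j))

/-- `E ‖∑ ε_i x_i‖²` for independent uniform signs. -/
noncomputable def rad2 {ι : Type} (N : (ι → ℝ) → ℝ) {l : ℕ} (x : Fin l → ι → ℝ) : ℝ :=
  (∑ ε : Fin l → Bool, N (∑ i, sg (ε i) • x i) ^ 2) / Fintype.card (Fin l → Bool)

/-- `N` is a norm. -/
def IsNorm {ι : Type} (N : (ι → ℝ) → ℝ) : Prop :=
  (∀ x y, N (x + y) ≤ N x + N y) ∧ (∀ (c : ℝ) x, N (c • x) = |c| * N x) ∧ ∀ x, N x = 0 → x = 0

/-- The cotype `q` constant of `N` is at most `C`. -/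
def CotypeLE {ι : Type} (N : (ι → ℝ) → ℝ) (q C : ℝ) : Prop :=
  ∀ (l : ℕ) (x : Fin l → ι → ℝ), (∑ i, N (x i) ^ q) ^ (1 / q) ≤ C * √(rad2 N x)

/-- The type 2 constant of the subspace `E` is at most `T`. -/
def TypeTwoLE {ι : Type} (N : (ι → ℝ) → ℝ) (E : Submodule ℝ (ι → ℝ)) (T : ℝ) : Prop :=
  ∀ (l : ℕ) (x : Fin l → ι → ℝ), (∀ i, x i ∈ E) → √(rad2 N x) ≤ T * √(∑ i, N (x i) ^ 2)

/-- For every `q > 2` the spaces `ℓ_1^m(ℓ_q^k)` have cotype `q` with constant `2`, but their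
proportional subspaces do not have bounded type 2 constants. -/
theorem result : ∀ q : ℝ, 2 < q → ∀ θ T : ℝ, 0 < θ → ∃ r : ℕ, ∀ m k : ℕ, r ≤ m → r ≤ k →
    IsNorm (mixedNorm q (m := m) (k := k)) ∧
    CotypeLE (mixedNorm q (m := m) (k := k)) q 2 ∧
    ∀ E : Submodule ℝ (Fin m × Fin k → ℝ), θ * (m * k) ≤ Module.finrank ℝ E →
      ¬ TypeTwoLE (mixedNorm q (m := m) (k := k)) E T := by
  intro q hq θ T hθ
  obtain ⟨r, hr⟩ := Pool.PT2.Main_FIN q θ T hq hθ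
  exact ⟨r, fun m k hm hk => ⟨(Pool.PT2.Main_NRM q hq.le m k).1, Pool.PT2.Main_COT q hq.le m k,
    hr m k hm hk⟩⟩

end Pool.Agent.Results.MP_138624_an.MixedNorm
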